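import Mathlib
import Pool.Agent.helper45.CubeA
import Pool.Agent.H46.HJMain

/-!
# MP_03ec6c_co: `HJ(4,2) ≤ 210`

Every two-colouring of `[4]^n` with `n ≥ 210` has a monochromatic combinatorial line; in
particular `H(4,n)` is not 2-colourable for `n ≥ 210`.
-/

namespace Pool.Agent.Results.MP_03ec6c_co.FourLetters

/-- The point of `ℝ^n` given by a vertex: the coordinates are in `{1,…,k}`. -/
def pt {k n : ℕ} (x : Fin n → Fin k) : Fin n → ℝ := fun i => ((x i : ℕ) : ℝ) + 1

/-- Edges of `H(k,n)`: the `k`-element sets of vertices lying on a line of `ℝ^n`. -/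
def IsEdge {k n : ℕ} (e : Finset (Fin n → Fin k)) : Prop :=
  e.card = k ∧ Collinear ℝ (pt '' (e : Set (Fin n → Fin k)))

/-- `H(k,n)` is 2-colourable. -/
def TwoColorable (k n : ℕ) : Prop :=
  ∃ c : (Fin n → Fin k) → Bool, ∀ e : Finset (Fin n → Fin k), IsEdge e →
    ∃ x ∈ e, ∃ y ∈ e, c x ≠ c y

open Pool.Agent.helper45.Cube in
/-- a monochromatic combinatorial line contradicts 2-colourability -/
theorem not_colorable {k n : ℕ}
    (h : ∀ c : (Fin n → Fin k) → Bool, ∃ l : Combinatorics.Line (Fin k) (Fin n), l.IsMono c) :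
    ¬ TwoColorable k n := by
  classical
  rintro ⟨c, hc⟩
  obtain ⟨l, b, hb⟩ := h c
  obtain ⟨i0, hi0⟩ := l.proper
  let K : Fin n → Kind k := fun i => match l.idxFun i with
    | none => Kind.fwd
    | some a => Kind.const a
  have hK : ∀ t : Fin k, (fun i => (K i).val t) = l t := by
    intro t
    funext i
    simp only [K, Combinatorics.Line.coe_apply]
    cases l.idxFun i <;> rfl
  have hact : (K i0).active = true := by
    simp only [K, hi0]
    rfl
  obtain ⟨x, hx, y, hy, hxy⟩ := hc _ (edge_of_kinds K i0 hact)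
  rw [Finset.mem_image] at hx hy
  obtain ⟨s, _, rfl⟩ := hx
  obtain ⟨t, _, rfl⟩ := hy
  rw [hK, hK, hb, hb] at hxy
  exact hxy rfl

/-- **Main theorem.** For `n ≥ 210` every two-colouring of the words of length `n` over four
letters has a monochromatic combinatorial line, and hence `H(4,n)` is not 2-colourable. -/
theorem result (n : ℕ) (hn : 210 ≤ n) :
    (∀ c : (Fin n → Fin 4) → Bool, ∃ l : Combinatorics.Line (Fin 4) (Fin n), l.IsMono c) ∧
    ¬ TwoColorable 4 n :=
  ⟨fun c => Pool.Agent.HJ4.hj hn c, not_colorable fun c => Pool.Agent.HJ4.hj hn c⟩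

end Pool.Agent.Results.MP_03ec6c_co.FourLetters
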