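import Mathlib
import Pool.Agent.H46.GEdge
import Pool.Agent.helper93.HJ47

/-!
# MP_03ec6c_co: `H(4,n)` is not 2-colourable for `n ≥ 47`

Every two-colouring of `{1,2,3,4}^n` with `n ≥ 47` has a monochromatic geometric line.
-/

namespace Pool.Agent.Results.MP_03ec6c_co.GeometricFour

/-- The point of `ℝ^n` given by a vertex: the coordinates are in `{1,…,k}`. -/
def pt {k n : ℕ} (x : Fin n → Fin k) : Fin n → ℝ := fun i => ((x i : ℕ) : ℝ) + 1

/-- Edges of `H(k,n)`: the `k`-element sets of vertices lying on a line of `ℝ^n`. -/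
def IsEdge {k n : ℕ} (e : Finset (Fin n → Fin k)) : Prop :=
  e.card = k ∧ Collinear ℝ (pt '' (e : Set (Fin n → Fin k)))

/-- `H(k,n)` is 2-colourable. -/
def TwoColorable (k n : ℕ) : Prop :=
  ∃ c : (Fin n → Fin k) → Bool, ∀ e : Finset (Fin n → Fin k), IsEdge e →
    ∃ x ∈ e, ∃ y ∈ e, c x ≠ c y

/-- the packing at `n = 47` rules out every good function on `[4]^47` -/
theorem no_good47 (F : Pool.Agent.HJ4.Pt 47 → ℤ) : ¬ Pool.Agent.HJ4.GoodG F := by
  refine Pool.Agent.HJ4.no_goodG (n := 47) (M := 68) (by norm_num) Pool.Agent.HJ47.copies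
    Pool.Agent.HJ47.copies_ok Pool.Agent.HJ47.sA Pool.Agent.HJ47.sD
    (fun _ _ => rfl) (fun _ _ => rfl) (fun G hG => ?_) ?_ F
  · exact Pool.Agent.HJ47.packing G hG
  · rw [Pool.Agent.HJ47.copies_sum]
    norm_num

/-- **Main theorem.** For `n ≥ 47` every two-colouring of `{1,2,3,4}^n` has a monochromatic
geometric line, that is `H(4,n)` is not 2-colourable. -/
theorem result (n : ℕ) (hn : 47 ≤ n) : ¬ TwoColorable 4 n :=
  Pool.Agent.HJ4.not_colorable_of hn no_good47

end Pool.Agent.Results.MP_03ec6c_co.GeometricFour
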