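import Mathlib
import Pool.Agent.helper45.CubeE
import Pool.Agent.helper45.CubeG
import Pool.Agent.helper65.HJ.Cube48
import Pool.Agent.helper65.HJ.Letters

/-!
# MP_03ec6c_co: `H(k,n)` is 2-colourable for `k ≥ 2⌊log₂ n⌋ + 2`; `ρ(n) = 3` for `3 ≤ n ≤ 8`
-/

namespace Pool.Agent.Results.MP_03ec6c_co.LogBound

open Finset

/-- The point of `ℝ^n` given by a vertex: the coordinates are in `{1,…,k}`. -/
def pt {k n : ℕ} (x : Fin n → Fin k) : Fin n → ℝ := fun i => ((x i : ℕ) : ℝ) + 1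

/-- Edges of `H(k,n)`: the `k`-element sets of vertices lying on a line of `ℝ^n`. -/
def IsEdge {k n : ℕ} (e : Finset (Fin n → Fin k)) : Prop :=
  e.card = k ∧ Collinear ℝ (pt '' (e : Set (Fin n → Fin k)))

/-- `H(k,n)` is 2-colourable. -/
def TwoColorable (k n : ℕ) : Prop :=
  ∃ c : (Fin n → Fin k) → Bool, ∀ e : Finset (Fin n → Fin k), IsEdge e →
    ∃ x ∈ e, ∃ y ∈ e, c x ≠ c y

/-- `ρ(n) = r`: `r` is the largest `k ≥ 1` for which `H(k,n)` is not 2-colourable. -/
def IsRho (n r : ℕ) : Prop := IsGreatest {k : ℕ | 1 ≤ k ∧ ¬ TwoColorable k n} r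

theorem twoColorable_iff {k n : ℕ} :
    TwoColorable k n ↔ Pool.Agent.helper45.Cube.TwoColorable k n := Iff.rfl

theorem not_one (n : ℕ) : ¬ TwoColorable 1 n := by
  rintro ⟨c, hc⟩
  obtain ⟨x, _, y, _, hxy⟩ := hc {fun _ => 0} ⟨by simp, by
    rw [Finset.coe_singleton, Set.image_singleton]; exact collinear_singleton ℝ _⟩
  exact hxy (by rw [Subsingleton.elim x y])

theorem not_two {n : ℕ} (hn : 2 ≤ n) : ¬ TwoColorable 2 n := by
  classical
  rintro ⟨c, hc⟩
  have key : ∀ x y : Fin n → Fin 2, x ≠ y → c x ≠ c y := by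
    intro x y hxy
    obtain ⟨u, hu, v, hv, huv⟩ := hc {x, y} ⟨Finset.card_pair hxy, by
      rw [Finset.coe_pair, Set.image_pair]; exact collinear_pair ℝ _ _⟩
    rw [Finset.mem_insert, Finset.mem_singleton] at hu hv
    rcases hu with rfl | rfl <;> rcases hv with rfl | rfl
    · exact absurd rfl huv
    · exact huv
    · exact huv.symm
    · exact absurd rfl huv
  let i0 : Fin n := ⟨0, by omega⟩
  let i1 : Fin n := ⟨1, by omega⟩
  have hi : i1 ≠ i0 := by simp [i0, i1]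
  let x : Fin n → Fin 2 := fun _ => 0
  let y : Fin n → Fin 2 := fun i => if i = i0 then 1 else 0
  let z : Fin n → Fin 2 := fun i => if i = i1 then 1 else 0
  have hxy : x ≠ y := fun h => by
    have := congrFun h i0
    simp [x, y] at this
  have hxz : x ≠ z := fun h => by
    have := congrFun h i1
    simp [x, z] at this
  have hyz : y ≠ z := fun h => by
    have := congrFun h i1
    simp [y, z, hi] at this
  have h1 := key x y hxy
  have h2 := key x z hxz
  have h3 := key y z hyz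
  cases hx : c x <;> cases hy : c y <;> cases hz : c z <;> simp_all

theorem four_le {k n : ℕ} (hn : 3 ≤ n) (hk : 1 ≤ k) (h : TwoColorable k n) : 4 ≤ k := by
  by_contra hcon
  have : k = 1 ∨ k = 2 ∨ k = 3 := by omega
  rcases this with rfl | rfl | rfl
  · exact not_one n h
  · exact not_two (by omega) h
  · exact Pool.Agent.helper45.Cube.not_colorable_three hn h

/-- A 2-colouring of `H(4,n)` gives one of `H(k,n)` for every `k ≥ 4`. -/
theorem colorable_of_four {k n : ℕ} (hk : 4 ≤ k) (h : TwoColorable 4 n) : TwoColorable k n :=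
  Pool.Agent.helper65.HJ.colorable_of_even (by norm_num) (by decide) hk h

theorem colorable_eight {n : ℕ} (hn : n ≤ 8) : TwoColorable 4 n :=
  Pool.Agent.helper45.Cube.colorable_mono (by norm_num) hn Pool.Agent.helper65.HJ.colorable48

theorem isRho_three_iff {n : ℕ} (hn : 3 ≤ n) : IsRho n 3 ↔ TwoColorable 4 n := by
  constructor
  · rintro ⟨_, h⟩
    by_contra hcon
    have := h (show (4 : ℕ) ∈ {k : ℕ | 1 ≤ k ∧ ¬ TwoColorable k n} from ⟨by norm_num, hcon⟩)
    omega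
  · intro h
    refine ⟨⟨by norm_num, fun h3 => ?_⟩, ?_⟩
    · have := four_le hn (by norm_num) h3
      omega
    · rintro k ⟨hk, hnc⟩
      by_contra hcon
      exact hnc (colorable_of_four (by omega) h)

/-- **Main theorem.** (1) `H(k,n)` is 2-colourable whenever `k ≥ 2⌊log₂ n⌋ + 2`, so
`ρ(n) ≤ 2⌊log₂ n⌋ + 1` for every `n ≥ 1`. (2) For `3 ≤ n ≤ 8` the hypergraph `H(k,n)` is
2-colourable exactly when `k ≥ 4`; in particular `ρ(5) = ρ(6) = ρ(7) = ρ(8) = 3`. (3) For every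
`n ≥ 3`, `ρ(n) = 3` if and only if `H(4,n)` is 2-colourable. -/
theorem result :
    (∀ k n : ℕ, 1 ≤ n → 2 * Nat.log 2 n + 2 ≤ k → TwoColorable k n) ∧
    (∀ n r : ℕ, 1 ≤ n → IsRho n r → r ≤ 2 * Nat.log 2 n + 1) ∧
    (∀ n : ℕ, 3 ≤ n → n ≤ 8 → ∀ k : ℕ, 1 ≤ k → (TwoColorable k n ↔ 4 ≤ k)) ∧
    (∀ n : ℕ, 3 ≤ n → n ≤ 8 → IsRho n 3) ∧
    (∀ n : ℕ, 3 ≤ n → (IsRho n 3 ↔ TwoColorable 4 n)) := by
  refine ⟨fun k n _ h => Pool.Agent.helper45.Cube.colorable_log2 h, ?_, ?_, ?_, ?_⟩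
  · rintro n r hn ⟨⟨_, hr⟩, _⟩
    by_contra hcon
    exact hr (Pool.Agent.helper45.Cube.colorable_log2 (by omega))
  · exact fun n hn hn8 k hk =>
      ⟨fun h => four_le hn hk h, fun h => colorable_of_four h (colorable_eight hn8)⟩
  · exact fun n hn hn8 => (isRho_three_iff hn).mpr (colorable_eight hn8)
  · exact fun n hn => isRho_three_iff hn

end Pool.Agent.Results.MP_03ec6c_co.LogBound
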