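import Mathlib
import Pool.Agent.helper12.HJ.Gadget

/-!
# MP_03ec6c_co: `ρ(n) ≤ 1.115 log₂ n + 10`

`H(k,n)` is 2-colourable whenever `n < 503^e` and `k ≥ 10 e + 1`.
-/

namespace Pool.Agent.Results.MP_03ec6c_co.SharperLogBound

open Finset

/-- The point of `ℝ^n` given by a vertex: the coordinates are in `{1,…,k}`. -/
def pt {k n : ℕ} (x : Fin n → Fin k) : Fin n → ℝ := fun i => ((x i : ℕ) : ℝ) + 1

/-- Edges of `H(k,n)`: the `k`-element sets of vertices lying on a line of `ℝ^n`. -/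
def IsEdge {k n : ℕ} (e : Finset (Fin n → Fin k)) : Prop :=
  e.card = k ∧ Collinear ℝ (pt '' (e : Set (Fin n → Fin k)))

/-- `H(k,n)` is 2-colourable. -/
def TwoColorable (k n : ℕ) : Prop :=
  ∃ c : (Fin n → Fin k) → Bool, ∀ e : Finset (Fin n → Fin k), IsEdge e →
    ∃ x ∈ e, ∃ y ∈ e, c x ≠ c y

/-- `ρ(n) = r`: `r` is the largest `k ≥ 1` for which `H(k,n)` is not 2-colourable. -/
def IsRho (n r : ℕ) : Prop := IsGreatest {k : ℕ | 1 ≤ k ∧ ¬ TwoColorable k n} r

theorem twoColorable_iff {k n : ℕ} :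
    TwoColorable k n ↔ Pool.Agent.helper45.Cube.TwoColorable k n := Iff.rfl

/-- the general bound -/
theorem colorable (a b c d k n : ℕ) (hn : 1 ≤ n) (h : n < 2 ^ a * 13 ^ b * 83 ^ c * 503 ^ d)
    (hk : 2 * (a + 3 * b + 4 * c + 5 * d) + 1 ≤ k) : TwoColorable k n := by
  have h1 := (Pool.Agent.helper12.HJ.col2.pow (by norm_num) a)
  have h2 := (Pool.Agent.helper12.HJ.col13.pow (by norm_num) b)
  have h3 := (Pool.Agent.helper12.HJ.col83.pow (by norm_num) c)
  have h4 := (Pool.Agent.helper12.HJ.col503.pow (by norm_num) d)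
  have h5 := Pool.Agent.helper12.HJ.Col.mul (by positivity)
    (Pool.Agent.helper12.HJ.Col.mul (by positivity)
      (Pool.Agent.helper12.HJ.Col.mul (by positivity) h1 h2) h3) h4
  rw [twoColorable_iff]
  refine (h5.mono ?_).twoColorable ?_ (by omega)
  · rintro j ⟨hj1, hj2⟩ hdvd
    exact absurd (Nat.le_of_dvd hj1 hdvd) (by omega)
  · by_contra hcon
    have ha : a = 0 := by omega
    have hb : b = 0 := by omega
    have hc : c = 0 := by omega
    have hd : d = 0 := by omega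
    subst ha hb hc hd
    simp at h
    omega

/-- **Main theorem.** (1) `H(k,n)` is 2-colourable for all `n ≥ 1`, `k ≥ 2(a+3b+4c+5d)+1` with
`n < 2^a 13^b 83^c 503^d`; (2) `ρ(n) ≤ 10 ⌈log₅₀₃(n+1)⌉`; (3) `ρ(n) ≤ 1.115 log₂ n + 10`. -/
theorem result :
    (∀ a b c d k n : ℕ, 1 ≤ n → n < 2 ^ a * 13 ^ b * 83 ^ c * 503 ^ d →
      2 * (a + 3 * b + 4 * c + 5 * d) + 1 ≤ k → TwoColorable k n) ∧
    (∀ n r : ℕ, 1 ≤ n → IsRho n r → r ≤ 10 * Nat.clog 503 (n + 1)) ∧
    (∀ n r : ℕ, 1 ≤ n → IsRho n r → (r : ℝ) ≤ 1.115 * Real.logb 2 n + 10) := by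
  have key : ∀ n r e : ℕ, 1 ≤ n → n < 503 ^ e → IsRho n r → r ≤ 10 * e := by
    rintro n r e hn he ⟨⟨_, hr⟩, _⟩
    by_contra hcon
    exact hr (colorable 0 0 0 e r n hn (by simpa using he) (by omega))
  refine ⟨fun a b c d k n => colorable a b c d k n, fun n r hn h => ?_, fun n r hn h => ?_⟩
  · exact key n r _ hn (Nat.lt_of_succ_le (Nat.le_pow_clog (by norm_num) (n + 1))) h
  · have h1 := key n r (Nat.log 503 n + 1) hn (Nat.lt_pow_succ_log_self (by norm_num) n) h
    have h2 : (503 : ℝ) ^ (Nat.log 503 n) ≤ n := by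
      have := Nat.pow_log_le_self 503 (x := n) (by omega)
      exact_mod_cast this
    have h3 : (Nat.log 503 n : ℝ) * Real.logb 2 503 ≤ Real.logb 2 n := by
      rw [← Real.logb_pow]
      exact Real.logb_le_logb_of_le (by norm_num) (by positivity) h2
    have h4 : (2000 : ℝ) ≤ 223 * Real.logb 2 503 := by
      have e1 : (223 : ℝ) * Real.logb 2 503 = Real.logb 2 (503 ^ 223) := by
        rw [Real.logb_pow]; norm_num
      have e2 : (2000 : ℝ) = Real.logb 2 (2 ^ 2000) := by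
        rw [Real.logb_pow, Real.logb_self_eq_one (by norm_num)]; norm_num
      rw [e1, e2]
      refine Real.logb_le_logb_of_le (by norm_num) (by positivity) ?_
      have : (2 : ℕ) ^ 2000 ≤ 503 ^ 223 := by decide +kernel
      exact_mod_cast this
    have h5 : (0 : ℝ) ≤ Nat.log 503 n := by positivity
    have h6 : (r : ℝ) ≤ 10 * (Nat.log 503 n + 1) := by exact_mod_cast h1
    nlinarith

end Pool.Agent.Results.MP_03ec6c_co.SharperLogBound
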